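import Mathlib

set_option autoImplicit false

namespace Pool.Agent.Results.MP_a3c043_al.Degree27

open Finset

/-! ### Definitions -/

section Defs

variable {Ω : Type} [Fintype Ω] [DecidableEq Ω]

/-- A subset `X` of `Ω` is non-trivial if `1 < |X| < |Ω|`. -/
def NonTrivial (X : Finset Ω) : Prop := 1 < X.card ∧ X.card < Fintype.card Ω

/-- `G` is strongly separating: for all non-trivial `A, B` with `|B|` dividing `n = |Ω|` and
`|A| |B| = k n`, some `g ∈ G` satisfies `|A ∩ Bg| ≠ k`. -/
def StronglySeparating (G : Subgroup (Equiv.Perm Ω)) : Prop :=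
  ∀ A B : Finset Ω, NonTrivial A → NonTrivial B → B.card ∣ Fintype.card Ω →
    ∀ k : ℕ, A.card * B.card = k * Fintype.card Ω → ∃ g ∈ G, (A ∩ B.image g).card ≠ k

/-- `G` is spreading: for every non-empty proper subset `A` and every non-injective map `t`,
some `g ∈ G` satisfies `|(Ag)t⁻¹| > |A|`. -/
def Spreading (G : Subgroup (Equiv.Perm Ω)) : Prop :=
  ∀ A : Finset Ω, A.Nonempty → A ≠ univ → ∀ t : Ω → Ω, ¬ Function.Injective t →
    ∃ g ∈ G, A.card < (univ.filter fun x => t x ∈ A.image g).card

/-- The augmentation submodule `{f : Ω → ℚ : ∑ f(x) = 0}`. -/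
def augmentation (Ω : Type) [Fintype Ω] : Submodule ℚ (Ω → ℚ) where
  carrier := {f | ∑ x, f x = 0}
  add_mem' := by
    intro f g hf hg
    have h1 : ∑ x, f x = 0 := hf
    have h2 : ∑ x, g x = 0 := hg
    show ∑ x, (f x + g x) = 0
    rw [Finset.sum_add_distrib, h1, h2, add_zero]
  zero_mem' := by
    show ∑ _x : Ω, (0 : ℚ) = 0
    exact Finset.sum_const_zero
  smul_mem' := by
    intro c f hf
    have h1 : ∑ x, f x = 0 := hf
    show ∑ x, c * f x = 0
    rw [← Finset.mul_sum, h1, mul_zero]

/-- `G` is QI: the augmentation submodule is an irreducible `ℚG`-module, that is, it is nonzero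
and its only `G`-invariant subspaces are `0` and itself. -/
def QI (G : Subgroup (Equiv.Perm Ω)) : Prop :=
  augmentation Ω ≠ ⊥ ∧ ∀ W : Submodule ℚ (Ω → ℚ), W ≤ augmentation Ω →
    (∀ g ∈ G, ∀ f ∈ W, (fun x => f (g x)) ∈ W) → W = ⊥ ∨ W = augmentation Ω

end Defs

/-! ### The collinearity graph of the generalised quadrangle with 27 points and 45 lines -/

/-- adjacency table -/
def adjN : ℕ := 629658513193096019314640574258506586812659951905380067990497566015949602128454210247991924858403626717392180494148278859391400365552718012291462194729484402257581674695955940303001637603209500918902283559543170224894060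

def adj (x y : Fin 27) : Bool := Nat.testBit adjN (27 * x.val + y.val)

/-- tables of six reflections generating a rank 3 group -/
def genN : Fin 6 → ℕ := ![24235345026073817084465890614629924702528, 36485634838697651318170094483388959393824, 36315493825189258057413100783297929255976, 36485052882716507044463448508300580735008, 36181241635720896878573785559085864814880, 22874337576098252117341091104947331020128]

def gen (i : Fin 6) (x : Fin 27) : Fin 27 := Fin.ofNat 27 ((genN i / 2 ^ (5 * x.val)) % 32)

/-- distances (in the orbit graph on pairs) to one of three base pairs -/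
def distN : ℕ := 17749190142666185908265009207541885694711721734392575578087964404561154397768416994695990229389728251598065814584561544256569829851261496117225688406973326054168539462565512620064411001435998909762795963041668726935253894299801018653811723028158922946155672501626232666785101547005587051715161524767525100588478429424774813510582185250613863132206943595052960511696360515737221299645495201722847830777714674267692328589662195708761432422206801948077271567473450509588219730314019481355248261353035065151650138557480553053992476546607007781241795700960327132870727390862033786380641164208768111446308566248881465888325887204920172789712570334831524469784472993455573777818917846342429565017576641882012931568801598096206287896304997665576099575241491460790259631865452779514249333252678527037920536088004087399399934917192185306795485872356204832948727084621687496040106500186002047884190271210742054261790827866602190919861380922108230091521301022034095815843362461264595699156189660361394080197001297224951322106462399602516500128118832117690211276340852105046286394368543414421891542267405107200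

def dist (x y : Fin 27) : ℕ := (distN / 2 ^ (5 * (27 * x.val + y.val))) % 32

lemma gen_invol : ∀ i : Fin 6, ∀ x : Fin 27, gen i (gen i x) = x := by decide +kernel

lemma gen_adj : ∀ i : Fin 6, ∀ x y : Fin 27, adj (gen i x) (gen i y) = adj x y := by
  decide +kernel

lemma adj_symm : ∀ x y : Fin 27, adj x y = adj y x := by decide +kernel

lemma adj_irrefl : ∀ x : Fin 27, adj x x = false := by decide +kernel

lemma dist_desc : ∀ x y : Fin 27, dist x y = 0 ∨
    ∃ i : Fin 6, dist (gen i x) (gen i y) < dist x y := by decide +kernel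

lemma dist_zero : ∀ x y : Fin 27, dist x y = 0 →
    x = 0 ∧ y = (if x = y then 0 else if adj x y then 2 else 1) := by decide +kernel

lemma adj_sq : ∀ x y : Fin 27, (∑ z, (if adj x z && adj z y then 1 else 0) : ℕ) =
    if x = y then 10 else if adj x y then 1 else 5 := by decide +kernel

lemma adj_deg : ∀ x : Fin 27, (∑ z, (if adj x z then 1 else 0) : ℕ) = 10 := by decide +kernel

/-! ### The group -/

/-- the generators as permutations -/
def genP (i : Fin 6) : Equiv.Perm (Fin 27) where
  toFun := gen i
  invFun := gen i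
  left_inv := gen_invol i
  right_inv := gen_invol i

/-- the automorphism group of the graph -/
def GG : Subgroup (Equiv.Perm (Fin 27)) where
  carrier := {g | ∀ x y, adj (g x) (g y) = adj x y}
  mul_mem' := by
    intro a b ha hb x y
    rw [Equiv.Perm.mul_apply, Equiv.Perm.mul_apply, ha, hb]
  one_mem' := by
    intro x y
    rfl
  inv_mem' := by
    intro a ha x y
    have := ha (a⁻¹ x) (a⁻¹ y)
    simpa using this.symm

lemma mem_GG (g : Equiv.Perm (Fin 27)) : g ∈ GG ↔ ∀ x y, adj (g x) (g y) = adj x y := Iff.rfl

lemma genP_mem (i : Fin 6) : genP i ∈ GG := gen_adj i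

lemma to_zero : ∀ n : ℕ, ∀ x : Fin 27, dist x x = n → ∃ g ∈ GG, g x = 0 := by
  intro n
  induction n using Nat.strong_induction_on with
  | _ n ih =>
    intro x hx
    rcases dist_desc x x with h | ⟨i, hi⟩
    · exact ⟨1, GG.one_mem, (dist_zero x x h).1⟩
    · obtain ⟨g, hg, hg2⟩ := ih (dist (gen i x) (gen i x)) (hx ▸ hi) (gen i x) rfl
      exact ⟨g * genP i, GG.mul_mem hg (genP_mem i), hg2⟩

lemma transitive (x y : Fin 27) : ∃ g ∈ GG, g x = y := by
  obtain ⟨g, hg, hgx⟩ := to_zero _ x rfl
  obtain ⟨h, hh, hhy⟩ := to_zero _ y rfl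
  refine ⟨h⁻¹ * g, GG.mul_mem (GG.inv_mem hh) hg, ?_⟩
  rw [Equiv.Perm.mul_apply, hgx, ← hhy]
  simp

/-! ### Averaging over the group -/

open Classical in
noncomputable def GF : Finset (Equiv.Perm (Fin 27)) := univ.filter (fun g => g ∈ GG)

lemma mem_GF (g : Equiv.Perm (Fin 27)) : g ∈ GF ↔ g ∈ GG := by
  unfold GF
  simp

noncomputable def CC (f : Fin 27 → ℚ) (y z : Fin 27) : ℚ := ∑ g ∈ GF, f (g y) * f (g z)

lemma CC_inv (f : Fin 27 → ℚ) (h : Equiv.Perm (Fin 27)) (hh : h ∈ GG) (y z : Fin 27) :
    CC f (h y) (h z) = CC f y z := by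
  unfold CC
  apply Finset.sum_bij (fun g _ => g * h)
  · intro g hg
    rw [mem_GF] at hg ⊢
    exact GG.mul_mem hg hh
  · intro g _ g' _ hgg
    exact mul_right_cancel hgg
  · intro g hg
    rw [mem_GF] at hg
    exact ⟨g * h⁻¹, (mem_GF _).mpr (GG.mul_mem hg (GG.inv_mem hh)), by simp⟩
  · intro g _
    rfl

lemma CC_rel (f : Fin 27 → ℚ) : ∀ n : ℕ, ∀ x y : Fin 27, dist x y = n →
    CC f x y = CC f 0 (if x = y then 0 else if adj x y then 2 else 1) := by
  intro n
  induction n using Nat.strong_induction_on with
  | _ n ih =>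
    intro x y hx
    rcases dist_desc x y with h | ⟨i, hi⟩
    · obtain ⟨h1, h2⟩ := dist_zero x y h
      rw [← h2, h1]
    · have h1 := ih (dist (gen i x) (gen i y)) (hx ▸ hi) (gen i x) (gen i y) rfl
      have h2 : CC f (gen i x) (gen i y) = CC f x y := CC_inv f (genP i) (genP_mem i) x y
      have h3 : (gen i x = gen i y) ↔ x = y := (genP i).injective.eq_iff
      rw [h2] at h1
      rw [h1]
      simp only [h3, gen_adj]

/-- adjacency operator -/
def Ad (f : Fin 27 → ℚ) (x : Fin 27) : ℚ := ∑ z, if adj x z then f z else 0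

lemma Ad_sq (f : Fin 27 → ℚ) (hf : ∑ x, f x = 0) (x : Fin 27) :
    Ad (Ad f) x = 5 * f x - 4 * Ad f x := by
  have h1 : Ad (Ad f) x = ∑ y, ((∑ z, (if adj x z && adj z y then 1 else 0) : ℕ) : ℚ) * f y := by
    unfold Ad
    have : ∀ z, (if adj x z then (∑ y, if adj z y then f y else 0) else 0) =
        ∑ y, (if adj x z && adj z y then 1 else 0 : ℚ) * f y := by
      intro z
      by_cases h : adj x z
      · rw [if_pos h]
        refine Finset.sum_congr rfl (fun y _ => ?_)
        rw [h]
        by_cases h' : adj z y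
        · simp [h']
        · simp [h']
      · rw [if_neg h]
        symm
        apply Finset.sum_eq_zero
        intro y _
        simp only [Bool.not_eq_true] at h
        rw [h]
        simp
    simp_rw [this]
    rw [Finset.sum_comm]
    refine Finset.sum_congr rfl (fun y _ => ?_)
    rw [← Finset.sum_mul]
    push_cast
    rfl
  rw [h1]
  have h2 : ∀ y, ((∑ z, (if adj x z && adj z y then 1 else 0) : ℕ) : ℚ) * f y =
      5 * f y - 4 * (if adj x y then f y else 0) + (if x = y then 5 * f y else 0) := by
    intro y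
    rw [adj_sq x y]
    by_cases hxy : x = y
    · subst hxy
      rw [adj_irrefl]
      simp
      ring
    · rw [if_neg hxy, if_neg hxy]
      by_cases h : adj x y
      · rw [if_pos h, if_pos h]; push_cast; ring
      · rw [if_neg h, if_neg h]; push_cast; ring
  simp_rw [h2]
  rw [Finset.sum_add_distrib, Finset.sum_sub_distrib, ← Finset.mul_sum, ← Finset.mul_sum, hf,
    Finset.sum_ite_eq]
  unfold Ad
  simp
  ring

lemma CC_apply (f h : Fin 27 → ℚ) (hh : ∑ x, h x = 0) (y : Fin 27) :
    ∑ z, CC f y z * h z =
      (CC f 0 0 - CC f 0 1) * h y + (CC f 0 2 - CC f 0 1) * Ad h y := by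
  have h1 : ∀ z, CC f y z * h z = CC f 0 1 * h z +
      (if y = z then (CC f 0 0 - CC f 0 1) * h z else 0) +
      (CC f 0 2 - CC f 0 1) * (if adj y z then h z else 0) := by
    intro z
    rw [CC_rel f _ y z rfl]
    by_cases hyz : y = z
    · subst hyz
      rw [adj_irrefl]
      simp
      ring
    · rw [if_neg hyz, if_neg hyz]
      by_cases h' : adj y z
      · rw [if_pos h', if_pos h']; ring
      · rw [if_neg h', if_neg h']; ring
  simp_rw [h1]
  rw [Finset.sum_add_distrib, Finset.sum_add_distrib, ← Finset.mul_sum, ← Finset.mul_sum, hh,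
    Finset.sum_ite_eq]
  unfold Ad
  simp

lemma CC_orth (f h : Fin 27 → ℚ) (hfh : ∀ g ∈ GG, ∑ z, f (g z) * h z = 0) (y : Fin 27) :
    ∑ z, CC f y z * h z = 0 := by
  unfold CC
  simp_rw [Finset.sum_mul]
  rw [Finset.sum_comm]
  apply Finset.sum_eq_zero
  intro g hg
  rw [mem_GF] at hg
  have : ∀ z, f (g y) * f (g z) * h z = f (g y) * (f (g z) * h z) := fun z => by ring
  simp_rw [this]
  rw [← Finset.mul_sum, hfh g hg, mul_zero]

lemma CC_pos (f : Fin 27 → ℚ) (hf : f ≠ 0) : 0 < ∑ y, f y * ∑ z, CC f y z * f z := by
  have h1 : ∑ y, f y * ∑ z, CC f y z * f z = ∑ g ∈ GF, (∑ y, f y * f (g y)) ^ 2 := by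
    have h2 : ∀ y, f y * ∑ z, CC f y z * f z =
        ∑ g ∈ GF, (f y * f (g y)) * ∑ z, f z * f (g z) := by
      intro y
      unfold CC
      simp_rw [Finset.sum_mul]
      rw [Finset.sum_comm, Finset.mul_sum]
      refine Finset.sum_congr rfl (fun g _ => ?_)
      rw [Finset.mul_sum, Finset.mul_sum]
      refine Finset.sum_congr rfl (fun z _ => ?_)
      ring
    simp_rw [h2]
    rw [Finset.sum_comm]
    refine Finset.sum_congr rfl (fun g _ => ?_)
    rw [← Finset.sum_mul, sq]
  rw [h1]
  apply Finset.sum_pos'
  · intro g _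
    positivity
  · refine ⟨1, (mem_GF 1).mpr GG.one_mem, ?_⟩
    have h3 : ∃ x, f x ≠ 0 := by
      by_contra h
      push Not at h
      exact hf (funext h)
    obtain ⟨x, hx⟩ := h3
    have h4 : 0 < ∑ y, f y * f ((1 : Equiv.Perm (Fin 27)) y) := by
      apply Finset.sum_pos'
      · intro y _
        rw [Equiv.Perm.one_apply]
        exact mul_self_nonneg _
      · exact ⟨x, mem_univ x, by rw [Equiv.Perm.one_apply]; exact mul_self_pos.mpr hx⟩
    positivity

lemma eig (f h : Fin 27 → ℚ) (hf : ∑ x, f x = 0) (hh : ∑ x, h x = 0) (hf0 : f ≠ 0)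
    (hh0 : h ≠ 0) (hfh : ∀ g ∈ GG, ∑ z, f (g z) * h z = 0) :
    ∃ p q : ℚ, q ≠ 0 ∧ (∀ y, p * h y + q * Ad h y = 0) ∧
      0 < p * ∑ y, f y * f y + q * ∑ y, f y * Ad f y := by
  refine ⟨CC f 0 0 - CC f 0 1, CC f 0 2 - CC f 0 1, ?_, ?_, ?_⟩
  swap
  · intro y
    rw [← CC_apply f h hh y]
    exact CC_orth f h hfh y
  swap
  · have h1 := CC_pos f hf0
    simp_rw [CC_apply f f hf] at h1
    refine lt_of_lt_of_eq h1 ?_
    rw [Finset.mul_sum, Finset.mul_sum, ← Finset.sum_add_distrib]
    refine Finset.sum_congr rfl (fun y _ => ?_)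
    ring
  · intro hq
    have h1 := CC_pos f hf0
    simp_rw [CC_apply f f hf, hq] at h1
    obtain ⟨x, hx⟩ : ∃ x, h x ≠ 0 := by
      by_contra h'
      push Not at h'
      exact hh0 (funext h')
    have h2 := CC_orth f h hfh x
    rw [CC_apply f h hh x, hq, zero_mul, add_zero] at h2
    have h3 : CC f 0 0 - CC f 0 1 = 0 := by
      rcases mul_eq_zero.mp h2 with h | h
      · exact h
      · exact absurd h hx
    rw [h3] at h1
    simp at h1

/-- two orthogonal functions: one of them is an eigenvector for the eigenvalue `-5` -/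
lemma one_neg5 (f h : Fin 27 → ℚ) (hf : ∑ x, f x = 0) (hh : ∑ x, h x = 0) (hf0 : f ≠ 0)
    (hh0 : h ≠ 0) (hfh : ∀ g ∈ GG, ∑ z, f (g z) * h z = 0) :
    (∀ y, Ad f y = -5 * f y) ∨ (∀ y, Ad h y = -5 * h y) := by
  have hhf : ∀ g ∈ GG, ∑ z, h (g z) * f z = 0 := by
    intro g hg
    rw [← hfh g⁻¹ (GG.inv_mem hg), ← Equiv.sum_comp g (fun z => f (g⁻¹ z) * h z)]
    refine Finset.sum_congr rfl (fun z _ => ?_)
    have h1 : g⁻¹ (g z) = z := by simp
    rw [h1]
    ring
  obtain ⟨p, q, hq, h1, h2⟩ := eig f h hf hh hf0 hh0 hfh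
  obtain ⟨p', q', hq', h1', -⟩ := eig h f hh hf hh0 hf0 hhf
  have key : ∀ (u : Fin 27 → ℚ) (p q : ℚ), ∑ x, u x = 0 → u ≠ 0 → q ≠ 0 →
      (∀ y, p * u y + q * Ad u y = 0) → ∃ θ : ℚ, (θ = 1 ∨ θ = -5) ∧ p + q * θ = 0 ∧
        ∀ y, Ad u y = θ * u y := by
    intro u p q hu hu0 hq h1
    refine ⟨-p / q, ?_, by field_simp; ring, ?_⟩
    swap
    · intro y
      have := h1 y
      field_simp
      linarith
    · have h3 : ∀ y, Ad u y = (-p / q) * u y := by
        intro y
        have := h1 y
        field_simp
        linarith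
      obtain ⟨x, hx⟩ : ∃ x, u x ≠ 0 := by
        by_contra h'
        push Not at h'
        exact hu0 (funext h')
      have h4 := Ad_sq u hu x
      have h5 : Ad (Ad u) x = (-p / q) * Ad u x := by
        have : Ad u = fun y => (-p / q) * u y := funext h3
        conv_lhs => rw [this]
        unfold Ad
        rw [Finset.mul_sum]
        refine Finset.sum_congr rfl (fun z _ => ?_)
        split_ifs <;> simp
      rw [h5, h3 x] at h4
      have h6 : ((-p / q) - 1) * ((-p / q) + 5) * u x = 0 := by linarith
      rcases mul_eq_zero.mp h6 with h | h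
      · rcases mul_eq_zero.mp h with h | h
        · left; linarith
        · right; linarith
      · exact absurd h hx
  obtain ⟨θ, hθ, hθ2, hθ3⟩ := key h p q hh hh0 hq h1
  obtain ⟨θ', hθ', -, hθ3'⟩ := key f p' q' hf hf0 hq' h1'
  rcases hθ with rfl | rfl
  · rcases hθ' with rfl | rfl
    · exfalso
      have h4 : ∑ y, f y * Ad f y = ∑ y, f y * f y := by
        refine Finset.sum_congr rfl (fun y _ => ?_)
        rw [hθ3' y, one_mul]
      rw [h4] at h2
      have h5 : p * ∑ y, f y * f y + q * ∑ y, f y * f y = 0 := by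
        rw [← add_mul]
        have : p + q = 0 := by linarith
        rw [this, zero_mul]
      linarith
    · exact Or.inl hθ3'
  · exact Or.inr hθ3

/-! ### There is no coclique of size 7, hence none of size 9 -/

def noCo : ℕ → List (Fin 27) → List (Fin 27) → Bool
  | 0, _, _ => false
  | _ + 1, [], _ => true
  | k + 1, a :: l, c =>
    noCo (k + 1) l c && (if c.all (fun b => !adj a b) then noCo k l (a :: c) else true)

lemma noCo_spec : ∀ (l : List (Fin 27)) (k : ℕ) (c : List (Fin 27)), noCo k l c = true →
    ∀ S : Finset (Fin 27), (∀ x ∈ S, x ∈ l) → (∀ x ∈ S, ∀ y ∈ S, adj x y = false) →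
      (∀ x ∈ S, ∀ b ∈ c, adj x b = false) → S.card < k := by
  intro l
  induction l with
  | nil =>
    intro k c hk S hS _ _
    have h1 : S = ∅ := by
      apply Finset.eq_empty_of_forall_notMem
      intro x hx
      exact absurd (hS x hx) (by simp)
    cases k with
    | zero => simp [noCo] at hk
    | succ k => rw [h1]; simp
  | cons a l ih =>
    intro k c hk S hS h1 h2
    cases k with
    | zero => simp [noCo] at hk
    | succ k =>
      simp only [noCo, Bool.and_eq_true] at hk
      obtain ⟨hk1, hk2⟩ := hk
      by_cases ha : a ∈ S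
      · have h3 : c.all (fun b => !adj a b) = true := by
          rw [List.all_eq_true]
          intro b hb
          rw [h2 a ha b hb]
          rfl
        rw [if_pos h3] at hk2
        have h4 := ih k (a :: c) hk2 (S.erase a) ?_ ?_ ?_
        · rw [Finset.card_erase_of_mem ha] at h4
          omega
        · intro x hx
          rw [Finset.mem_erase] at hx
          rcases List.mem_cons.mp (hS x hx.2) with h | h
          · exact absurd h hx.1
          · exact h
        · intro x hx y hy
          exact h1 x (Finset.mem_of_mem_erase hx) y (Finset.mem_of_mem_erase hy)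
        · intro x hx b hb
          rcases List.mem_cons.mp hb with h | h
          · rw [h]; exact h1 x (Finset.mem_of_mem_erase hx) a ha
          · exact h2 x (Finset.mem_of_mem_erase hx) b h
      · apply ih (k + 1) c hk1 S _ h1 h2
        intro x hx
        rcases List.mem_cons.mp (hS x hx) with h | h
        · rw [h] at hx; exact absurd hx ha
        · exact h

lemma noCo_val : noCo 9 (List.finRange 27) [] = true := by decide +kernel

lemma no_coclique (S : Finset (Fin 27)) (hS : ∀ x ∈ S, ∀ y ∈ S, adj x y = false) : S.card < 9 :=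
  noCo_spec (List.finRange 27) 9 [] noCo_val S (fun x _ => List.mem_finRange x) hS (by simp)

/-- the centred indicator function -/
def ind (A : Finset (Fin 27)) (x : Fin 27) : ℚ := (if x ∈ A then 27 else 0) - A.card

lemma sum_ind (A : Finset (Fin 27)) : ∑ x, ind A x = 0 := by
  unfold ind
  rw [Finset.sum_sub_distrib]
  simp
  ring

lemma Ad_ind (A : Finset (Fin 27)) (x : Fin 27) :
    Ad (ind A) x = 27 * ((A.filter (fun z => adj x z)).card : ℚ) - 10 * A.card := by
  have h1 : Ad (ind A) x = ∑ z, ((if adj x z then (if z ∈ A then 27 else 0) else 0 : ℚ) -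
      (if adj x z then 1 else 0 : ℚ) * A.card) := by
    unfold Ad ind
    refine Finset.sum_congr rfl (fun z _ => ?_)
    split_ifs <;> ring
  rw [h1, Finset.sum_sub_distrib, ← Finset.sum_mul]
  have h2 : (∑ z, (if adj x z then 1 else 0 : ℚ)) = 10 := by
    have := adj_deg x
    exact_mod_cast this
  have h3 : (∑ z, (if adj x z then (if z ∈ A then 27 else 0) else 0 : ℚ)) =
      27 * ((A.filter (fun z => adj x z)).card : ℚ) := by
    rw [Finset.card_filter]
    push_cast
    rw [Finset.mul_sum, ← Finset.sum_subset (Finset.subset_univ A)]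
    · refine Finset.sum_congr rfl (fun z hz => ?_)
      rw [if_pos hz]
      split_ifs <;> simp
    · intro z _ hz
      rw [if_neg hz]
      simp
  rw [h2, h3]

lemma ind_ne_zero (A : Finset (Fin 27)) (hA : NonTrivial A) : ind A ≠ 0 := by
  intro h
  obtain ⟨h1, h2⟩ := hA
  rw [Fintype.card_fin] at h2
  obtain ⟨x, hx⟩ : A.Nonempty := Finset.card_pos.mp (by omega)
  have h3 := congrFun h x
  unfold ind at h3
  rw [if_pos hx] at h3
  have h4 : (A.card : ℚ) < 27 := by exact_mod_cast h2
  simp only [Pi.zero_apply] at h3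
  linarith

lemma no_neg5 (A : Finset (Fin 27)) (hA : NonTrivial A)
    (h : ∀ y, Ad (ind A) y = -5 * ind A y) : False := by
  obtain ⟨h1, h2⟩ := hA
  rw [Fintype.card_fin] at h2
  obtain ⟨x, hx⟩ : A.Nonempty := Finset.card_pos.mp (by omega)
  have hin : ∀ y ∈ A, 9 * (A.filter (fun z => adj y z)).card + 45 = 5 * A.card := by
    intro y hy
    have h3 := h y
    rw [Ad_ind] at h3
    unfold ind at h3
    rw [if_pos hy] at h3
    have h4 : (9 * (A.filter (fun z => adj y z)).card + 45 : ℚ) = 5 * A.card := by linarith
    exact_mod_cast h4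
  have hout : ∀ y, y ∉ A → 9 * (A.filter (fun z => adj y z)).card = 5 * A.card := by
    intro y hy
    have h3 := h y
    rw [Ad_ind] at h3
    unfold ind at h3
    rw [if_neg hy] at h3
    have h4 : (9 * (A.filter (fun z => adj y z)).card : ℚ) = 5 * A.card := by linarith
    exact_mod_cast h4
  have h3 := hin x hx
  have h4 : A.card = 9 ∨ A.card = 18 := by omega
  rcases h4 with h4 | h4
  · have h5 : A.card < 9 := by
      apply no_coclique
      intro y hy z hz
      have h6 := hin y hy
      have h7 : (A.filter (fun z => adj y z)).card = 0 := by omega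
      rw [Finset.card_eq_zero] at h7
      by_contra h8
      have h9 : z ∈ A.filter (fun z => adj y z) := by
        rw [Finset.mem_filter]
        exact ⟨hz, by simpa using h8⟩
      rw [h7] at h9
      simp at h9
    omega
  · have h5 : (Aᶜ).card < 9 := by
      apply no_coclique
      intro y hy z hz
      rw [Finset.mem_compl] at hy hz
      have h6 := hout y hy
      have h7 : (A.filter (fun z => adj y z)).card = 10 := by omega
      have h8 : (univ.filter (fun z => adj y z)).card = 10 := by
        rw [Finset.card_filter]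
        exact adj_deg y
      have h9 : A.filter (fun z => adj y z) = univ.filter (fun z => adj y z) := by
        apply Finset.eq_of_subset_of_card_le
        · exact Finset.filter_subset_filter _ (Finset.subset_univ A)
        · omega
      by_contra h10
      have h11 : z ∈ univ.filter (fun z => adj y z) := by
        rw [Finset.mem_filter]
        exact ⟨mem_univ z, by simpa using h10⟩
      rw [← h9, Finset.mem_filter] at h11
      exact hz h11.1
    rw [Finset.card_compl, Fintype.card_fin] at h5
    omega

lemma sum_prod (A B : Finset (Fin 27)) (g : Equiv.Perm (Fin 27)) :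
    ∑ z, ind A (g z) * ind B z =
      27 * (27 * ((A ∩ B.image g).card : ℚ) - A.card * B.card) := by
  have h1 : ∀ z, ind A (g z) * ind B z =
      (if g z ∈ A ∧ z ∈ B then 729 else 0 : ℚ) - B.card * (if g z ∈ A then 27 else 0) -
      A.card * (if z ∈ B then 27 else 0) + A.card * B.card := by
    intro z
    unfold ind
    by_cases h1 : g z ∈ A <;> by_cases h2 : z ∈ B <;> simp [h1, h2] <;> ring
  simp_rw [h1]
  rw [Finset.sum_add_distrib, Finset.sum_sub_distrib, Finset.sum_sub_distrib, ← Finset.mul_sum,
    ← Finset.mul_sum]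
  have h2 : (∑ z, (if g z ∈ A ∧ z ∈ B then 729 else 0 : ℚ)) = 729 * ((A ∩ B.image g).card : ℚ) := by
    have h3 : A ∩ B.image g = (univ.filter (fun z => g z ∈ A ∧ z ∈ B)).image g := by
      ext w
      simp only [Finset.mem_inter, Finset.mem_image, Finset.mem_filter, Finset.mem_univ, true_and]
      constructor
      · rintro ⟨hw, z, hz, rfl⟩
        exact ⟨z, ⟨hw, hz⟩, rfl⟩
      · rintro ⟨z, ⟨hw, hz⟩, rfl⟩
        exact ⟨hw, z, hz, rfl⟩
    rw [h3, Finset.card_image_of_injective _ g.injective, Finset.card_filter]
    push_cast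
    rw [Finset.mul_sum]
    refine Finset.sum_congr rfl (fun z _ => ?_)
    split_ifs <;> simp
  have h3 : (∑ z, (if g z ∈ A then 27 else 0 : ℚ)) = 27 * A.card := by
    rw [Equiv.sum_comp g (fun z => (if z ∈ A then 27 else 0 : ℚ))]
    simp
    ring
  have h4 : (∑ z, (if z ∈ B then 27 else 0 : ℚ)) = 27 * B.card := by
    simp
    ring
  rw [h2, h3, h4]
  simp
  ring

/-- stronger than strong separation: no divisibility condition on `|B|` is needed -/
lemma strongSep (A B : Finset (Fin 27)) (hA : NonTrivial A) (hB : NonTrivial B) (k : ℕ)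
    (hk : A.card * B.card = k * 27) : ∃ g ∈ GG, (A ∩ B.image g).card ≠ k := by
  by_contra hcon
  push Not at hcon
  have h1 : ∀ g ∈ GG, ∑ z, ind A (g z) * ind B z = 0 := by
    intro g hg
    rw [sum_prod, hcon g hg]
    have : (A.card : ℚ) * B.card = k * 27 := by exact_mod_cast hk
    rw [this]
    ring
  rcases one_neg5 (ind A) (ind B) (sum_ind A) (sum_ind B) (ind_ne_zero A hA) (ind_ne_zero B hB) h1
    with h | h
  · exact no_neg5 A hA h
  · exact no_neg5 B hB h

/-! ### The group is not spreading -/

def tabN : ℕ := 36528170142453638023218747222488592287744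

def tt (x : Fin 27) : Fin 27 := Fin.ofNat 27 ((tabN / 2 ^ (5 * x.val)) % 32)

lemma tt_line : ∀ x y z : Fin 27, adj x y = true → adj y z = true → adj x z = true →
    (univ.filter fun w => tt w = x ∨ tt w = y ∨ tt w = z).card ≤ 3 := by decide +kernel

lemma not_spreading : ¬ Spreading GG := by
  intro h
  have hadj : adj 0 2 = true ∧ adj 2 3 = true ∧ adj 0 3 = true := by decide +kernel
  obtain ⟨g, hg, hlt⟩ := h ({0, 2, 3} : Finset (Fin 27)) (by decide) (by decide +kernel) tt (by
    intro hinj
    have h1 : tt 0 = tt 1 := by decide +kernel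
    have h2 := hinj h1
    exact absurd h2 (by decide))
  rw [mem_GG] at hg
  have h1 := tt_line (g 0) (g 2) (g 3) (by rw [hg]; exact hadj.1) (by rw [hg]; exact hadj.2.1)
    (by rw [hg]; exact hadj.2.2)
  have h2 : ({0, 2, 3} : Finset (Fin 27)).card = 3 := by decide
  rw [h2] at hlt
  have h3 : (univ.filter fun x => tt x ∈ ({0, 2, 3} : Finset (Fin 27)).image g) =
      (univ.filter fun w => tt w = g 0 ∨ tt w = g 2 ∨ tt w = g 3) := by
    ext w
    simp
  rw [h3] at hlt
  omega

/-! ### The group is not QI -/

def wN : Fin 27 → ℤ := ![1, -1, 0, -1, 1, 0, -1, 1, 0, 0, 0, 0, 0, -1, 1, 0, 0, 0, 0, -1, 1, 0, 0, 0, 0, -1, 1]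

lemma w_line : ∀ x y z : Fin 27, adj x y = true → adj y z = true → adj x z = true →
    wN x + wN y + wN z = 0 := by decide +kernel

lemma w_sum : ∑ x, wN x = 0 := by decide +kernel

/-- functions summing to zero, in total and over every line -/
def WW : Submodule ℚ (Fin 27 → ℚ) where
  carrier := {f | ∑ x, f x = 0 ∧ ∀ x y z : Fin 27, adj x y = true → adj y z = true →
    adj x z = true → f x + f y + f z = 0}
  add_mem' := by
    intro f g hf hg
    refine ⟨?_, fun x y z h1 h2 h3 => ?_⟩
    · show ∑ x, (f x + g x) = 0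
      rw [Finset.sum_add_distrib, hf.1, hg.1, add_zero]
    · have h4 := hf.2 x y z h1 h2 h3
      have h5 := hg.2 x y z h1 h2 h3
      show (f x + g x) + (f y + g y) + (f z + g z) = 0
      linarith
  zero_mem' := by
    refine ⟨?_, fun x y z _ _ _ => ?_⟩
    · show ∑ _x : Fin 27, (0 : ℚ) = 0
      exact Finset.sum_const_zero
    · show (0 : ℚ) + 0 + 0 = 0
      ring
  smul_mem' := by
    intro c f hf
    refine ⟨?_, fun x y z h1 h2 h3 => ?_⟩
    · show ∑ x, c * f x = 0
      rw [← Finset.mul_sum, hf.1, mul_zero]
    · have h4 := hf.2 x y z h1 h2 h3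
      show c * f x + c * f y + c * f z = 0
      rw [← mul_add, ← mul_add, h4, mul_zero]

lemma not_QI : ¬ QI GG := by
  rintro ⟨-, h⟩
  have hadj : adj 0 2 = true ∧ adj 2 3 = true ∧ adj 0 3 = true := by decide +kernel
  have hinv : ∀ g ∈ GG, ∀ f ∈ WW, (fun x => f (g x)) ∈ WW := by
    intro g hg f hf
    rw [mem_GG] at hg
    refine ⟨?_, fun x y z h1 h2 h3 => ?_⟩
    · show ∑ x, f (g x) = 0
      rw [Equiv.sum_comp g f]
      exact hf.1
    · exact hf.2 (g x) (g y) (g z) (by rw [hg]; exact h1) (by rw [hg]; exact h2)
        (by rw [hg]; exact h3)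
  rcases h WW (fun f hf => hf.1) hinv with h1 | h1
  · have h2 : (fun x => (wN x : ℚ)) ∈ WW := by
      refine ⟨?_, fun x y z h1 h2 h3 => ?_⟩
      · have := w_sum
        show ∑ x, (wN x : ℚ) = 0
        exact_mod_cast this
      · have := w_line x y z h1 h2 h3
        show (wN x : ℚ) + (wN y : ℚ) + (wN z : ℚ) = 0
        exact_mod_cast this
    rw [h1, Submodule.mem_bot] at h2
    have h3 := congrFun h2 0
    have h4 : wN 0 = 1 := by decide +kernel
    simp only [h4] at h3
    simp at h3
  · have h2 : (fun x : Fin 27 => if x = 0 then (1 : ℚ) else if x = 1 then -1 else 0) ∈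
        augmentation (Fin 27) := by
      show ∑ x : Fin 27, (if x = 0 then (1 : ℚ) else if x = 1 then -1 else 0) = 0
      have h3 : ∀ x : Fin 27, (if x = 0 then (1 : ℚ) else if x = 1 then -1 else 0) =
          (if x = 0 then (1 : ℚ) else 0) + (if x = 1 then -1 else 0) := by
        intro x
        by_cases hx : x = 0
        · subst hx; simp
        · simp [hx]
      simp_rw [h3]
      rw [Finset.sum_add_distrib]
      simp
    rw [← h1] at h2
    have h3 := h2.2 0 2 3 hadj.1 hadj.2.1 hadj.2.2
    simp at h3

/-- Q1 and Q2 have positive answers: there is a transitive permutation group of degree 27 (the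
automorphism group of the generalised quadrangle with 27 points and 45 lines) which is strongly
separating (even when the condition that `|B|` divides `n` is dropped), but is neither spreading
nor QI. -/
theorem result : ∃ G : Subgroup (Equiv.Perm (Fin 27)),
    (∀ x y : Fin 27, ∃ g ∈ G, g x = y) ∧ StronglySeparating G ∧
    (∀ A B : Finset (Fin 27), NonTrivial A → NonTrivial B → ∀ k : ℕ,
      A.card * B.card = k * Fintype.card (Fin 27) → ∃ g ∈ G, (A ∩ B.image g).card ≠ k) ∧
    ¬ Spreading G ∧ ¬ QI G := by
  have key : ∀ A B : Finset (Fin 27), NonTrivial A → NonTrivial B → ∀ k : ℕ,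
      A.card * B.card = k * Fintype.card (Fin 27) → ∃ g ∈ GG, (A ∩ B.image g).card ≠ k := by
    intro A B hA hB k hk
    rw [Fintype.card_fin] at hk
    exact strongSep A B hA hB k hk
  exact ⟨GG, transitive, fun A B hA hB _ k hk => key A B hA hB k hk, key, not_spreading, not_QI⟩

end Pool.Agent.Results.MP_a3c043_al.Degree27
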